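import Pool.Agent.H81.GT.TargetsT
import Pool.Agent.H54.LS.Sph

/-!
Theorem G (MP_ee74d2_an), group T, module COV: change of variables between space-time in the
coordinates `(x, t)` and in light cone coordinates.
-/

set_option autoImplicit false

namespace Pool.Agent.H56.G.COV

open MeasureTheory Set
open scoped ENNReal NNReal
open Pool.Agent.H83.LS (EE jo pr)
open Pool.Agent.H83.G (Z)
open Pool.Agent.H81.GT
open Pool.Agent.H54.LS (mp_jo jo_last pr_jo jo_pr continuous_jo continuous_pr)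

private theorem lint_mul (g : ℝ → ℝ≥0∞) (hg : Measurable g) (c : ℝ) (hc : 0 < c) :
    ∫⁻ u : ℝ, g (c * u) = ENNReal.ofReal c⁻¹ * ∫⁻ u : ℝ, g u := by
  have h1 : ∫⁻ u : ℝ, g u ∂(Measure.map (c * ·) volume) = ∫⁻ u : ℝ, g (c * u) :=
    lintegral_map hg (measurable_const_mul c)
  rw [Real.map_volume_mul_left hc.ne', lintegral_smul_measure, abs_of_pos (inv_pos.2 hc)] at h1
  rw [← h1]
  rfl

private theorem two_dim (H : ℝ → ℝ → ℝ≥0∞) (hH : Measurable (Function.uncurry H)) :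
    ∫⁻ u : ℝ, ∫⁻ τ : ℝ, H (τ + u) (τ - u) = ENNReal.ofReal 2⁻¹ * ∫⁻ a : ℝ, ∫⁻ b : ℝ, H a b := by
  have h1 : ∀ u : ℝ, ∫⁻ τ : ℝ, H (τ + u) (τ - u) = ∫⁻ τ : ℝ, H (τ + 2 * u) τ := by
    intro u
    rw [← lintegral_add_right_eq_self (fun τ : ℝ => H (τ + u) (τ - u)) u]
    refine lintegral_congr fun τ => ?_
    have e1 : τ + u + u = τ + 2 * u := by ring
    have e2 : τ + u - u = τ := by ring
    rw [e1, e2]
  have hm : ∀ {α : Type} [MeasurableSpace α] (f g : α → ℝ), Measurable f → Measurable g →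
      Measurable fun x => H (f x) (g x) := by
    intro α _ f g hf hg
    exact hH.comp (hf.prodMk hg)
  simp_rw [h1]
  rw [lintegral_lintegral_swap]
  swap
  · exact (hm _ _ (by fun_prop) (by fun_prop)).aemeasurable
  have h2 : ∀ τ : ℝ, ∫⁻ u : ℝ, H (τ + 2 * u) τ = ENNReal.ofReal 2⁻¹ * ∫⁻ a : ℝ, H a τ := by
    intro τ
    have h3 := lint_mul (fun a => H (τ + a) τ) (hm _ _ (by fun_prop) (by fun_prop)) 2 two_pos
    rw [h3]
    congr 1
    exact lintegral_add_left_eq_self (fun a : ℝ => H a τ) τ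
  simp_rw [h2]
  rw [lintegral_const_mul]
  · rw [lintegral_lintegral_swap]
    exact (hm _ _ (by fun_prop) (by fun_prop)).aemeasurable
  · exact (hm (α := ℝ × ℝ) (fun q => q.2) (fun q => q.1) measurable_snd
      measurable_fst).lintegral_prod_right'

private theorem two_dim' (H : ℝ → ℝ → ℝ≥0∞) (hH : Measurable (Function.uncurry H)) :
    ∫⁻ t : ℝ, ∫⁻ u : ℝ, H ((t + u) / 2) ((t - u) / 2) = 2 * ∫⁻ v : ℝ, ∫⁻ w : ℝ, H v w := by
  have hm : ∀ {α : Type} [MeasurableSpace α] (f g : α → ℝ), Measurable f → Measurable g →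
      Measurable fun x => H (f x) (g x) := by
    intro α _ f g hf hg
    exact hH.comp (hf.prodMk hg)
  rw [lintegral_lintegral_swap]
  swap
  · exact (hm _ _ (by fun_prop) (by fun_prop)).aemeasurable
  rw [two_dim (fun a b => H (a / 2) (b / 2)) (hm _ _ (by fun_prop) (by fun_prop))]
  have h1 : ∀ a : ℝ, ∫⁻ b : ℝ, H (a / 2) (b / 2) = 2 * ∫⁻ w : ℝ, H (a / 2) w := by
    intro a
    have h2 := lint_mul (fun w => H (a / 2) w) (hm _ _ (by fun_prop) (by fun_prop)) 2⁻¹ (by norm_num)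
    rw [inv_inv, ENNReal.ofReal_ofNat] at h2
    rw [← h2]
    refine lintegral_congr fun b => ?_
    rw [div_eq_inv_mul b 2]
  simp_rw [h1]
  have hI : Measurable fun v : ℝ => ∫⁻ w : ℝ, H v w :=
    (hm (α := ℝ × ℝ) (fun q => q.1) (fun q => q.2) measurable_fst
      measurable_snd).lintegral_prod_right'
  have h3 := lint_mul (fun v => ∫⁻ w : ℝ, H v w) hI 2⁻¹ (by norm_num)
  rw [inv_inv, ENNReal.ofReal_ofNat] at h3
  rw [lintegral_const_mul' _ _ (by norm_num)]
  have h4 : ∫⁻ a : ℝ, ∫⁻ w : ℝ, H (a / 2) w = 2 * ∫⁻ v : ℝ, ∫⁻ w : ℝ, H v w := by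
    rw [← h3]
    refine lintegral_congr fun b => ?_
    rw [div_eq_inv_mul b 2]
  rw [h4, ← mul_assoc, ← mul_assoc]
  congr 1
  rw [mul_assoc, ENNReal.ofReal_inv_of_pos two_pos, ENNReal.ofReal_ofNat, ← mul_assoc,
    ENNReal.inv_mul_cancel (by norm_num) (by norm_num), one_mul]

private theorem lint_jo {n : ℕ} (G : EE (n + 1) → ℝ≥0∞) (hG : Measurable G) :
    ∫⁻ x, G x = ∫⁻ y : EE n, ∫⁻ u : ℝ, G (jo y u) := by
  rw [← (mp_jo n).lintegral_comp hG]
  exact lintegral_prod _ (hG.comp continuous_jo.measurable).aemeasurable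

private theorem lint_Z {n : ℕ} (F : Z n → ℝ≥0∞) (hF : Measurable F) :
    ∫⁻ z, F z = ∫⁻ y : EE n, ∫⁻ v : ℝ, ∫⁻ w : ℝ, F (v, y, w) := by
  have h1 : ∫⁻ z, F z = ∫⁻ v : ℝ, ∫⁻ p : EE n × ℝ, F (v, p) := lintegral_prod _ hF.aemeasurable
  rw [h1]
  have h2 : ∀ v : ℝ, ∫⁻ p : EE n × ℝ, F (v, p) = ∫⁻ y : EE n, ∫⁻ w : ℝ, F (v, y, w) := by
    intro v
    exact lintegral_prod _ (hF.comp (by fun_prop)).aemeasurable
  simp_rw [h2]
  rw [lintegral_lintegral_swap]
  have h3 : Measurable fun q : (ℝ × EE n) × ℝ => F (q.1.1, q.1.2, q.2) := hF.comp (by fun_prop)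
  exact h3.lintegral_prod_right'.aemeasurable

private theorem zt_jo {n : ℕ} (y : EE n) (u t : ℝ) : zt (jo y u) t = ((t + u) / 2, y, (t - u) / 2) := by
  unfold zt
  rw [jo_last, pr_jo]

private theorem item3 {n : ℕ} (F : Z n → ℝ≥0∞) (hF : Measurable F) :
    ∫⁻ z, F z = 2⁻¹ * ∫⁻ t : ℝ, ∫⁻ x : EE (n + 1), F (zt x t) := by
  have hz : Measurable fun q : EE (n + 1) × ℝ => zt q.1 q.2 := by
    unfold zt
    have : Measurable fun q : EE (n + 1) × ℝ => pr q.1 :=
      continuous_pr.measurable.comp measurable_fst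
    fun_prop
  have h1 : ∀ t : ℝ, ∫⁻ x : EE (n + 1), F (zt x t) =
      ∫⁻ y : EE n, ∫⁻ u : ℝ, F ((t + u) / 2, y, (t - u) / 2) := by
    intro t
    have h5 : Measurable fun x : EE (n + 1) => F (zt x t) :=
      hF.comp (hz.comp (by fun_prop : Measurable fun x : EE (n + 1) => (x, t)))
    rw [lint_jo _ h5]
    refine lintegral_congr fun y => lintegral_congr fun u => ?_
    rw [zt_jo]
  simp_rw [h1]
  rw [lintegral_lintegral_swap]
  swap
  · have h3 : Measurable fun q : (ℝ × EE n) × ℝ => F ((q.1.1 + q.2) / 2, q.1.2, (q.1.1 - q.2) / 2) :=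
      hF.comp (by fun_prop)
    exact h3.lintegral_prod_right'.aemeasurable
  have h2 : ∀ y : EE n, ∫⁻ t : ℝ, ∫⁻ u : ℝ, F ((t + u) / 2, y, (t - u) / 2) =
      2 * ∫⁻ v : ℝ, ∫⁻ w : ℝ, F (v, y, w) := by
    intro y
    exact two_dim' (fun v w => F (v, y, w)) (hF.comp (by fun_prop))
  simp_rw [h2]
  rw [lintegral_const_mul' _ _ (by norm_num), ← mul_assoc,
    ENNReal.inv_mul_cancel (by norm_num) (by norm_num), one_mul, lint_Z F hF]

private theorem item5 {n : ℕ} (F : Z n → ℝ≥0∞) (hF : Measurable F) : ∫⁻ ζ, F ζ =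
    2 * ∫⁻ ξ : EE (n + 1), ∫⁻ τ : ℝ, F (τ + ξ (Fin.last n), pr ξ, τ - ξ (Fin.last n)) := by
  have hp : Measurable (pr : EE (n + 1) → EE n) := continuous_pr.measurable
  have h0 : Measurable fun ξ : EE (n + 1) => ∫⁻ τ : ℝ, F (τ + ξ (Fin.last n), pr ξ,
      τ - ξ (Fin.last n)) := by
    have h3 : Measurable fun q : EE (n + 1) × ℝ => F (q.2 + q.1 (Fin.last n), pr q.1,
        q.2 - q.1 (Fin.last n)) := by
      refine hF.comp ?_
      have : Measurable fun q : EE (n + 1) × ℝ => pr q.1 := hp.comp measurable_fst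
      fun_prop
    exact h3.lintegral_prod_right'
  rw [lint_jo _ h0, lint_Z F hF, ← lintegral_const_mul' _ _ (by norm_num)]
  refine lintegral_congr fun y => ?_
  have h1 := two_dim (fun a b => F (a, y, b)) (hF.comp (by fun_prop))
  simp_rw [jo_last, pr_jo]
  rw [h1, ← mul_assoc, ENNReal.ofReal_inv_of_pos two_pos, ENNReal.ofReal_ofNat,
    ENNReal.mul_inv_cancel (by norm_num) (by norm_num), one_mul]

private theorem item4 {n : ℕ} (F : Z n → ℂ) (hF : Continuous F) (hi : Integrable F) :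
    ∫ ζ, F ζ = 2 * ∫ ξ : EE (n + 1), ∫ τ : ℝ, F (τ + ξ (Fin.last n), pr ξ,
      τ - ξ (Fin.last n)) := by
  have hp : Measurable (pr : EE (n + 1) → EE n) := continuous_pr.measurable
  obtain ⟨Ψ, hΨ⟩ : ∃ Ψ : EE (n + 1) × ℝ → Z n, Ψ = fun q => (q.2 + q.1 (Fin.last n), pr q.1,
      q.2 - q.1 (Fin.last n)) := ⟨_, rfl⟩
  have hm : Measurable Ψ := by
    rw [hΨ]
    have : Measurable fun q : EE (n + 1) × ℝ => pr q.1 := hp.comp measurable_fst
    fun_prop
  have hv : (volume : Measure (Z n)) = (2 : ℝ≥0∞) • Measure.map Ψ (volume.prod volume) := by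
    ext S hS
    rw [Measure.smul_apply, Measure.map_apply hm hS, smul_eq_mul,
      ← lintegral_indicator_one hS, item5 _ (measurable_one.indicator hS),
      ← lintegral_indicator_one (hm hS),
      lintegral_prod _ (measurable_one.indicator (hm hS)).aemeasurable]
    subst hΨ
    rfl
  have h1 : Integrable F (Measure.map Ψ (volume.prod volume)) := by
    rw [hv] at hi
    exact (integrable_smul_measure (by norm_num) (by norm_num)).1 hi
  have h2 : Integrable (fun q => F (Ψ q)) ((volume : Measure (EE (n + 1))).prod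
      (volume : Measure ℝ)) :=
    (integrable_map_measure h1.aestronglyMeasurable hm.aemeasurable).1 h1
  rw [hv, integral_smul_measure, integral_map hm.aemeasurable h1.aestronglyMeasurable,
    integral_prod _ h2]
  subst hΨ
  norm_num

/-- COV: change of variables -/
theorem pf_COV : T_COV := by
  intro n
  refine ⟨fun x t => ?_, fun z => ?_, fun F hF => item3 F hF, fun F hF hi => item4 F hF hi,
    fun F hF => item5 F hF⟩
  · constructor
    · unfold xz zt
      have e1 : (t + x (Fin.last n)) / 2 - (t - x (Fin.last n)) / 2 = x (Fin.last n) := by ring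
      simp only [e1]
      exact jo_pr x
    · unfold tz zt
      simp only
      ring
  · unfold zt xz tz
    rw [jo_last, pr_jo]
    obtain ⟨v, y, w⟩ := z
    have e1 : (v + w + (v - w)) / 2 = v := by ring
    have e2 : (v + w - (v - w)) / 2 = w := by ring
    simp only [e1, e2]

end Pool.Agent.H56.G.COV
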