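import Pool.Agent.H83.G.Targets5

/-!
Row MSB of the board g_modules: multiplicities with weights are bounded by the number of planks
near the point.
-/

set_option autoImplicit false

namespace Pool.Agent.H56.G.MSB

open Pool.Agent.H83.G MeasureTheory Set
open scoped ENNReal NNReal RealInnerProductSpace

private theorem wt_pos {m : ℕ} (N : ℕ) (x : Z m) : 0 < wt N x := by
  unfold wt
  positivity

private theorem wt_le {m : ℕ} (N : ℕ) (x : Z m) : wt N x ≤ 1 := by
  unfold wt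
  refine inv_le_one_of_one_le₀ (one_le_pow₀ ?_)
  have := norm_nonneg x
  linarith

/-- finite sums of the weights over points far away -/
private theorem tail (hWT3 : T_WT3) (m N : ℕ) (hN : m + 3 ≤ N) : ∃ C₃ : ℝ, 0 ≤ C₃ ∧
    ∀ (x : Z m) (ρ : ℝ) (J : Finset (Zi m)), 0 ≤ ρ → (∀ l ∈ J, ρ ≤ ‖x - zc l‖) →
      ∑ l ∈ J, wt N (x - zc l) ≤ C₃ * ((1 + ρ) ^ (m + 3) * ((1 + ρ) ^ N)⁻¹) := by
  obtain ⟨C, -, h, -⟩ := hWT3 m N hN
  have hC0 : (0 : ℝ) ≤ (C : ℝ) := C.coe_nonneg
  refine ⟨(C : ℝ), hC0, fun x ρ J hρ hJ => ?_⟩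
  have h1 := h x ρ (J : Set (Zi m)) hρ (fun l hl => hJ l hl)
  have h2 : ∑' l : (J : Set (Zi m)), ENNReal.ofReal (wt N (x - zc (l : Zi m))) =
      ∑ l ∈ J, ENNReal.ofReal (wt N (x - zc l)) :=
    J.tsum_subtype' (fun l => ENNReal.ofReal (wt N (x - zc l)))
  rw [h2, ← ENNReal.ofReal_sum_of_nonneg (fun l _ => (wt_pos N _).le),
    ← ENNReal.ofReal_coe_nnreal, ← ENNReal.ofReal_mul hC0] at h1
  exact (ENNReal.ofReal_le_ofReal_iff (mul_nonneg hC0 (by positivity))).1 h1

open scoped Classical in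
theorem pf_MSB (hWT3 : T_WT3) (hPUS : T_PUS) : T_MSB := by
  intro m δ hδ
  obtain ⟨-, -, CP, hCP, hcard, -⟩ := hPUS m
  set n₁ : ℕ := ⌈(m : ℝ) / (2 * δ)⌉₊ with hn₁
  refine ⟨m + 4 + n₁, fun N hN => ?_⟩
  obtain ⟨C₃, hC₃, htail⟩ := tail hWT3 m N (by omega)
  refine ⟨max 1 (max 1 CP * C₃), le_max_left _ _, fun R S z _ hC hS => ?_⟩
  set ρ : ℝ := R ^ δ with hρ
  have hρ1 : 1 ≤ ρ := (le_max_left _ _).trans hC
  have hρC : max 1 CP * C₃ ≤ ρ := (le_max_right _ _).trans hC
  have hρ0 : 0 < ρ := by linarith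
  -- the number of the caps
  have hK : ((Ks m (sR R)).card : ℝ) ≤ max 1 CP * ρ ^ n₁ := by
    rcases le_or_gt R 0 with hR | hR
    · have h1 : sR R = 0 := by
        unfold sR
        rw [Real.sqrt_eq_zero_of_nonpos hR, inv_zero]
      have h2 : ((Ks m (sR R)).card : ℝ) = 1 := by
        rw [h1]
        unfold Ks
        simp
      rw [h2]
      have h3 : 1 ≤ ρ ^ n₁ := one_le_pow₀ hρ1
      calc (1 : ℝ) = 1 * 1 := (one_mul 1).symm
        _ ≤ max 1 CP * ρ ^ n₁ := mul_le_mul (le_max_left _ _) h3 zero_le_one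
            (le_trans zero_le_one (le_max_left _ _))
    · have hR1 : 1 ≤ R := by
        by_contra hlt
        have : R ^ δ < 1 := Real.rpow_lt_one hR.le (not_le.1 hlt) hδ
        linarith
      have h1 : 0 < sR R := by
        unfold sR
        positivity
      have h2 : sR R ≤ 1 := by
        unfold sR
        exact inv_le_one_of_one_le₀ (Real.one_le_sqrt.2 hR1)
      refine (hcard (sR R) h1 h2).trans ?_
      have h3 : ((sR R)⁻¹) ^ m ≤ ρ ^ n₁ := by
        unfold sR
        rw [inv_inv, Real.sqrt_eq_rpow, ← Real.rpow_natCast, ← Real.rpow_mul hR.le, hρ,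
          ← Real.rpow_natCast, ← Real.rpow_mul hR.le]
        refine Real.rpow_le_rpow_of_exponent_le hR1 ?_
        have h4 : (m : ℝ) / (2 * δ) ≤ n₁ := Nat.le_ceil _
        rw [div_le_iff₀ (by positivity)] at h4
        linarith
      exact mul_le_mul (le_max_right _ _) h3 (by positivity)
        (le_trans zero_le_one (le_max_left _ _))
  -- splitting
  have hsplit : MS N R δ S z = ∑ W ∈ S.filter (fun W => near R δ W z),
      wt N (fc R δ W.1 z - zc W.2) + ∑ W ∈ S.filter (fun W => ¬ near R δ W z),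
      wt N (fc R δ W.1 z - zc W.2) := by
    unfold MS
    exact (Finset.sum_filter_add_sum_filter_not S _ _).symm
  have h1 : ∑ W ∈ S.filter (fun W => near R δ W z), wt N (fc R δ W.1 z - zc W.2) ≤
      ((S.filter (fun W => near R δ W z)).card : ℝ) := by
    rw [Finset.card_eq_sum_ones, Nat.cast_sum]
    exact Finset.sum_le_sum fun W _ => by
      rw [Nat.cast_one]
      exact wt_le N _
  have h2 : ∑ W ∈ S.filter (fun W => ¬ near R δ W z), wt N (fc R δ W.1 z - zc W.2) ≤ 1 := by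
    have hmaps : ∀ W ∈ S.filter (fun W => ¬ near R δ W z), W.1 ∈ Ks m (sR R) := fun W hW =>
      hS W (Finset.mem_filter.1 hW).1
    rw [← Finset.sum_fiberwise_of_maps_to hmaps]
    have h3 : ∀ k ∈ Ks m (sR R),
        ∑ W ∈ (S.filter (fun W => ¬ near R δ W z)).filter (fun W => W.1 = k),
          wt N (fc R δ W.1 z - zc W.2) ≤ C₃ * (ρ ^ (n₁ + 1))⁻¹ := by
      intro k _
      have h4 : ∑ W ∈ (S.filter (fun W => ¬ near R δ W z)).filter (fun W => W.1 = k),
          wt N (fc R δ W.1 z - zc W.2) =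
          ∑ l ∈ ((S.filter (fun W => ¬ near R δ W z)).filter (fun W => W.1 = k)).image Prod.snd,
            wt N (fc R δ k z - zc l) := by
        rw [Finset.sum_image]
        · refine Finset.sum_congr rfl fun W hW => ?_
          rw [(Finset.mem_filter.1 hW).2]
        · intro W hW W' hW' h
          exact Prod.ext ((Finset.mem_filter.1 hW).2.trans (Finset.mem_filter.1 hW').2.symm) h
      rw [h4]
      refine (htail (fc R δ k z) ρ _ hρ0.le ?_).trans ?_
      · intro l hl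
        obtain ⟨W, hW, rfl⟩ := Finset.mem_image.1 hl
        obtain ⟨hW1, rfl⟩ := Finset.mem_filter.1 hW
        have h5 := (Finset.mem_filter.1 hW1).2
        unfold near at h5
        exact (not_le.1 h5).le
      · refine mul_le_mul_of_nonneg_left ?_ hC₃
        have e : (1 + ρ) ^ N = (1 + ρ) ^ (m + 3) * (1 + ρ) ^ (N - (m + 3)) := by
          rw [← pow_add]
          congr 1
          omega
        have h6 : 0 < (1 + ρ) ^ (m + 3) := by positivity
        rw [e, mul_inv, ← mul_assoc, mul_inv_cancel₀ h6.ne', one_mul]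
        refine inv_anti₀ (by positivity) ?_
        calc ρ ^ (n₁ + 1) ≤ (1 + ρ) ^ (n₁ + 1) :=
              pow_le_pow_left₀ hρ0.le (by linarith) _
          _ ≤ (1 + ρ) ^ (N - (m + 3)) := pow_le_pow_right₀ (by linarith) (by omega)
    calc _ ≤ ∑ k ∈ Ks m (sR R), C₃ * (ρ ^ (n₁ + 1))⁻¹ := Finset.sum_le_sum h3
      _ = ((Ks m (sR R)).card : ℝ) * (C₃ * (ρ ^ (n₁ + 1))⁻¹) := by
          rw [Finset.sum_const, nsmul_eq_mul]
      _ ≤ (max 1 CP * ρ ^ n₁) * (C₃ * (ρ ^ (n₁ + 1))⁻¹) := by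
          have : 0 ≤ C₃ * (ρ ^ (n₁ + 1))⁻¹ := by positivity
          gcongr
      _ = (max 1 CP * C₃) * ρ⁻¹ := by
          rw [pow_succ]
          field_simp
      _ ≤ ρ * ρ⁻¹ := by gcongr
      _ = 1 := mul_inv_cancel₀ hρ0.ne'
  rw [hsplit]
  linarith

end Pool.Agent.H56.G.MSB
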